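import Pool.Agent.Lib.helper1.SidMain

set_option autoImplicit false

namespace Pool.Agent.Results.MP_c1a6cd_co.TightCycle

open Pool.Agent.Lib.Helper1.Sid Finset

/-- The `r`-uniform tight cycle on `ZMod N`: edges `{i, i+1, ..., i+r-1}`. -/
def tightCycle (r N : ℕ) [NeZero N] : Finset (Finset (ZMod N)) :=
  (univ : Finset (ZMod N)).image (fun i => (range r).image (fun j : ℕ => i + (j : ZMod N)))

theorem result :
    ∀ r : ℕ, 4 ≤ r → ∃ K : ℝ, ∀ (l : ℕ) [NeZero (r * l)], 2 ≤ l →
      sidorenkoExponent r (tightCycle r (r * l)) ≤ ((K * (r * l) : ℝ) : EReal) := by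
  intro r hr
  refine ⟨((1 + r * (r * r + 1) ^ r : ℕ) : ℝ), fun l _ hl => ?_⟩
  have hr0 : 0 < r := by omega
  haveI : NeZero r := ⟨by omega⟩
  let π : ZMod (r * l) →+* ZMod r := ZMod.castHom (Dvd.intro l rfl) (ZMod r)
  let c : ZMod (r * l) → Fin r := fun v => ⟨(π v).val, ZMod.val_lt _⟩
  have hc : ∀ e ∈ tightCycle r (r * l), ∀ i, (e.filter (fun v => c v = i)).card = 1 := by
    intro e he t
    obtain ⟨i, -, rfl⟩ := mem_image.1 he
    rw [card_eq_one]
    refine ⟨i + (((t.val : ZMod r) - π i).val : ZMod (r * l)), ?_⟩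
    ext v
    simp only [mem_filter, mem_image, mem_range, mem_singleton]
    constructor
    · rintro ⟨⟨j, hj, rfl⟩, h⟩
      have h1 : (π (i + (j : ZMod (r * l)))).val = t.val := congrArg Fin.val h
      have h2 : π i + (j : ZMod r) = (t.val : ZMod r) := by
        rw [← h1, ZMod.natCast_zmod_val, map_add, map_natCast]
      rw [← h2, add_sub_cancel_left, ZMod.val_natCast, Nat.mod_eq_of_lt hj]
    · rintro rfl
      refine ⟨⟨_, ZMod.val_lt _, rfl⟩, Fin.ext ?_⟩
      change (π _).val = t.val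
      rw [map_add, map_natCast, ZMod.natCast_zmod_val, add_sub_cancel, ZMod.val_natCast,
        Nat.mod_eq_of_lt t.isLt]
  have hΔ : ∀ v, ((tightCycle r (r * l)).filter (fun e => v ∈ e)).card ≤ r := by
    intro v
    have : (tightCycle r (r * l)).filter (fun e => v ∈ e) ⊆ (range r).image
        (fun k : ℕ => (range r).image (fun j : ℕ => (v - (k : ZMod (r * l))) + (j : ZMod (r * l)))) := by
      intro e he
      obtain ⟨he1, he2⟩ := mem_filter.1 he
      obtain ⟨i, -, rfl⟩ := mem_image.1 he1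
      obtain ⟨k, hk, rfl⟩ := mem_image.1 he2
      exact mem_image.2 ⟨k, hk, by rw [add_sub_cancel_right]⟩
    exact (card_le_card this).trans (card_image_le.trans (card_range r).le)
  refine (exponent_le r (by omega) r _ c hc hΔ).trans ?_
  rw [EReal.coe_le_coe_iff]
  have hcard : (tightCycle r (r * l)).card ≤ r * l := by
    refine card_image_le.trans ?_
    rw [card_univ, ZMod.card]
  have : (((1 + r * (r * r + 1) ^ r) * (tightCycle r (r * l)).card : ℕ) : ℝ) ≤
      (((1 + r * (r * r + 1) ^ r) * (r * l) : ℕ) : ℝ) := by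
    exact_mod_cast Nat.mul_le_mul_left _ hcard
  refine this.trans (le_of_eq ?_)
  push_cast; ring

end Pool.Agent.Results.MP_c1a6cd_co.TightCycle
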